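import Pool.Agent.U645.VB.Stm

/-!
Project VB, package K (helper908): Kirkman's theorem, by the constructions of Bose and Skolem.
-/

set_option autoImplicit false

open Finset

namespace Pool.Agent.U645.VB

/-- systems from a binary operation -/
theorem sys_of_tau {α : Type} [Fintype α] [DecidableEq α] (τ : α → α → α)
    (h1 : ∀ x y, x ≠ y → τ x y = τ y x) (h2 : ∀ x y, x ≠ y → τ x y ≠ x)
    (h3 : ∀ x y, x ≠ y → τ x (τ x y) = y) : Sys α 1 := by
  have h4 : ∀ x y, x ≠ y → τ x y ≠ y := fun x y h => by
    rw [h1 x y h]; exact h2 y x h.symm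
  refine ⟨fun x y z => decide (x ≠ y ∧ x ≠ z ∧ y ≠ z ∧ τ x y = z), ?_, ?_, ?_, ?_⟩
  · intro x y z
    rw [decide_eq_decide]
    constructor
    · rintro ⟨a, b, c, d⟩
      exact ⟨a.symm, c, b, by rw [← h1 x y a]; exact d⟩
    · rintro ⟨a, b, c, d⟩
      exact ⟨a.symm, c, b, by rw [← h1 y x a]; exact d⟩
  · intro x y z
    rw [decide_eq_decide]
    constructor
    · rintro ⟨a, b, c, d⟩
      refine ⟨b, a, c.symm, ?_⟩
      rw [← d]; exact h3 x y a
    · rintro ⟨a, b, c, d⟩
      refine ⟨b, a, c.symm, ?_⟩
      rw [← d]; exact h3 x z a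
  · intro x y
    simp
  · intro x y hxy
    refine ⟨0, by norm_num, ?_⟩
    have : (univ.filter fun z => decide (x ≠ y ∧ x ≠ z ∧ y ≠ z ∧ τ x y = z) = true) = {τ x y} := by
      ext z
      simp only [mem_filter, mem_univ, true_and, decide_eq_true_eq, mem_singleton]
      constructor
      · rintro ⟨-, -, -, h⟩
        exact h.symm
      · rintro rfl
        exact ⟨hxy, (h2 x y hxy).symm, (h4 x y hxy).symm, rfl⟩
    rw [this, card_singleton]

/-- transport -/
theorem Sys.congr {α β : Type} [Fintype α] [DecidableEq α] [Fintype β] [DecidableEq β] {l : ℕ}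
    (e : β ≃ α) (h : Sys α l) : Sys β l := by
  obtain ⟨t, h1, h2, h3, h4⟩ := h
  refine ⟨fun x y z => t (e x) (e y) (e z), fun x y z => h1 _ _ _, fun x y z => h2 _ _ _,
    fun x y => h3 _ _, ?_⟩
  intro x y hxy
  obtain ⟨d, hd, hd'⟩ := h4 (e x) (e y) (fun h => hxy (e.injective h))
  refine ⟨d, hd, ?_⟩
  rw [← hd']
  congr 1
  refine Finset.card_bij (fun z _ => e z) ?_ ?_ ?_
  · intro z hz
    simpa using hz
  · intro z _ w _ h
    exact e.injective h
  · intro z hz
    refine ⟨e.symm z, ?_, e.apply_symm_apply z⟩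
    simpa using hz

section Bose

variable {m : ℕ} [NeZero m]

/-- the third point of the Bose system, `h` is one half -/
def bose (h : ZMod m) (p q : ZMod m × Fin 3) : ZMod m × Fin 3 :=
  if p.2 = q.2 then ((p.1 + q.1) * h, p.2 + 1)
  else if q.2 = p.2 + 1 then (if p.1 = q.1 then (p.1, p.2 + 2) else (2 * q.1 - p.1, p.2))
  else (if p.1 = q.1 then (p.1, q.2 + 2) else (2 * p.1 - q.1, q.2))

omit [NeZero m] in
theorem half_ne {h : ZMod m} (hh : 2 * h = 1) {x y : ZMod m} (hxy : x ≠ y) : x ≠ (x + y) * h := by
  intro h1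
  apply hxy
  have h2 : 2 * x = (x + y) * (2 * h) := by
    calc 2 * x = 2 * ((x + y) * h) := by rw [← h1]
      _ = _ := by ring
  rw [hh, mul_one, two_mul] at h2
  exact add_left_cancel h2

omit [NeZero m] in
theorem bose_eqs {h : ZMod m} (hh : 2 * h = 1) (x y : ZMod m) :
    2 * ((x + y) * h) - x = y ∧ (x + (2 * y - x)) * h = y := by
  constructor
  · have : 2 * ((x + y) * h) = (x + y) * (2 * h) := by ring
    rw [this, hh]; ring
  · have : (x + (2 * y - x)) * h = y * (2 * h) := by ring
    rw [this, hh, mul_one]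

omit [NeZero m] in
theorem half_ne2 {h : ZMod m} (hh : 2 * h = 1) {x y : ZMod m} (hxy : x ≠ y) : x ≠ 2 * y - x := by
  intro h1
  apply hxy
  have h2 : 2 * x = 2 * y := by linear_combination h1
  have h3 : (2 * h) * x = (2 * h) * y := by linear_combination h * h2
  rwa [hh, one_mul, one_mul] at h3

omit [NeZero m] in
theorem bose_ne_left {h : ZMod m} (hh : 2 * h = 1) : ∀ p q : ZMod m × Fin 3, p ≠ q →
    bose h p q ≠ p := by
  rintro ⟨x, i⟩ ⟨y, j⟩ hne
  unfold bose
  by_cases hxy : x = y
  · subst hxy
    fin_cases i <;> fin_cases j <;> simp_all [Prod.ext_iff]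
  · have := half_ne2 hh hxy
    fin_cases i <;> fin_cases j <;> simp_all [Prod.ext_iff, eq_comm]

/-- Bose -/
theorem sys_bose {h : ZMod m} (hh : 2 * h = 1) : Sys (ZMod m × Fin 3) 1 := by
  have hne3 : ∀ {x y : ZMod m}, x ≠ y → x ≠ 2 * x - y := by
    intro x y hxy h1
    apply hxy
    linear_combination -h1
  refine sys_of_tau (bose h) ?_ (bose_ne_left hh) ?_
  · rintro ⟨x, i⟩ ⟨y, j⟩ hne
    unfold bose
    by_cases hxy : x = y
    · subst hxy
      fin_cases i <;> fin_cases j <;> simp_all [Prod.ext_iff]
    · have hyx : ¬ y = x := fun h => hxy h.symm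
      fin_cases i <;> fin_cases j <;> simp_all [Prod.ext_iff, add_comm]
  · rintro ⟨x, i⟩ ⟨y, j⟩ hne
    unfold bose
    by_cases hxy : x = y
    · subst hxy
      fin_cases i <;> fin_cases j <;> simp_all [Prod.ext_iff]
    · have h1 := half_ne hh hxy
      have h2 := (bose_eqs hh x y).1
      have h3 := (bose_eqs hh x y).2
      have h4 := hne3 hxy
      fin_cases i <;> fin_cases j <;> simp_all [Prod.ext_iff]

end Bose

/-- a half-idempotent commutative quasigroup -/
structure HQ (Q : Type) where
  op : Q → Q → Q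
  ld : Q → Q → Q
  low : Q → Prop
  dec : DecidablePred low
  up : Q → Q
  dn : Q → Q
  comm : ∀ x y, op x y = op y x
  op_ld : ∀ x z, op x (ld x z) = z
  ld_op : ∀ x y, ld x (op x y) = y
  sq_low : ∀ x, low x → op x x = x
  sq_high : ∀ x, ¬ low x → op x x = dn x
  low_dn : ∀ x, ¬ low x → low (dn x)
  up_dn : ∀ x, ¬ low x → up (dn x) = x
  high_up : ∀ x, low x → ¬ low (up x)
  dn_up : ∀ x, low x → dn (up x) = x

attribute [instance] HQ.dec

namespace HQ

variable {Q : Type} [DecidableEq Q] (S : HQ Q)

/-- the third point of `∞, (x, i)` -/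
def inf (x : Q) (i : Fin 3) : Option (Q × Fin 3) :=
  if S.low x then some (S.up x, i + 2) else some (S.dn x, i + 1)

/-- the third point of `(x, i), (z, i + 1)` -/
def half (x z : Q) (i : Fin 3) : Option (Q × Fin 3) :=
  if S.op x x = z then (if S.low x then some (x, i + 2) else none) else some (S.ld x z, i)

/-- the third point of the Skolem system -/
def tau : Option (Q × Fin 3) → Option (Q × Fin 3) → Option (Q × Fin 3)
  | none, none => none
  | none, some (x, i) => S.inf x i
  | some (x, i), none => S.inf x i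
  | some (x, i), some (y, j) =>
    if i = j then some (S.op x y, i + 1) else if j = i + 1 then S.half x y i else S.half y x j

theorem fin3 : ∀ i j : Fin 3, i = j ∨ j = i + 1 ∨ i = j + 1 := by decide

theorem f1 : ∀ i : Fin 3, i ≠ i + 1 := by decide
theorem f2 : ∀ i : Fin 3, i ≠ i + 2 := by decide
theorem f3 : ∀ i : Fin 3, i + 2 ≠ i + 1 := by decide
theorem f4 : ∀ i : Fin 3, i + 1 + 2 = i := by decide
theorem f5 : ∀ i : Fin 3, i + 2 + 1 = i := by decide
theorem f6 : ∀ i : Fin 3, i ≠ i + 1 + 1 := by decide
theorem f7 : ∀ i : Fin 3, i + 2 + 2 = i + 1 := by decide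
theorem f8 : ∀ i : Fin 3, i + 1 + 1 = i + 2 := by decide

theorem tau_eq (x y : Q) (i : Fin 3) : S.tau (some (x, i)) (some (y, i)) =
    some (S.op x y, i + 1) := by
  simp [tau]

theorem tau_succ (x y : Q) (i : Fin 3) : S.tau (some (x, i)) (some (y, i + 1)) = S.half x y i := by
  simp [tau, f1 i]

theorem tau_pred (x y : Q) (i : Fin 3) : S.tau (some (x, i + 1)) (some (y, i)) = S.half y x i := by
  simp only [tau]
  rw [if_neg (f1 i).symm, if_neg (f6 i)]

theorem tau_none_left (x : Q) (i : Fin 3) : S.tau none (some (x, i)) = S.inf x i := rfl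

theorem tau_none_right (x : Q) (i : Fin 3) : S.tau (some (x, i)) none = S.inf x i := rfl

omit [DecidableEq Q] in
theorem cancel {x y z : Q} (h : S.op x y = S.op x z) : y = z := by
  rw [← S.ld_op x y, h, S.ld_op]

theorem tau_comm (p q : Option (Q × Fin 3)) (h : p ≠ q) : S.tau p q = S.tau q p := by
  rcases p with _ | ⟨x, i⟩ <;> rcases q with _ | ⟨y, j⟩
  · rfl
  · rfl
  · rfl
  · rcases fin3 i j with rfl | rfl | rfl
    · rw [tau_eq, tau_eq, S.comm]
    · rw [tau_succ, tau_pred]
    · rw [tau_succ, tau_pred]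

theorem tau_ne (p q : Option (Q × Fin 3)) (h : p ≠ q) : S.tau p q ≠ p := by
  rcases p with _ | ⟨x, i⟩ <;> rcases q with _ | ⟨y, j⟩
  · exact absurd rfl h
  · rw [tau_none_left, inf]
    split_ifs <;> simp
  · rw [tau_none_right, inf]
    split_ifs <;> simp
  · rcases fin3 i j with rfl | rfl | rfl
    · rw [tau_eq]
      intro h'
      simp only [Option.some.injEq, Prod.mk.injEq] at h'
      exact f1 i h'.2.symm
    · rw [tau_succ, half]
      split_ifs with h1 h2
      · intro h'
        simp only [Option.some.injEq, Prod.mk.injEq] at h'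
        exact f2 i h'.2.symm
      · simp
      · intro h'
        simp only [Option.some.injEq, Prod.mk.injEq] at h'
        apply h1
        have h3 := S.op_ld x y
        rwa [h'.1] at h3
    · rw [tau_pred, half]
      split_ifs with h1 h2
      · intro h'
        simp only [Option.some.injEq, Prod.mk.injEq] at h'
        exact f3 j h'.2
      · simp
      · intro h'
        simp only [Option.some.injEq, Prod.mk.injEq] at h'
        exact f1 j h'.2

theorem tau_tau (p q : Option (Q × Fin 3)) (h : p ≠ q) : S.tau p (S.tau p q) = q := by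
  rcases p with _ | ⟨x, i⟩ <;> rcases q with _ | ⟨y, j⟩
  · exact absurd rfl h
  · rw [tau_none_left]
    unfold inf
    split_ifs with h1
    · rw [tau_none_left]
      unfold inf
      rw [if_neg (S.high_up y h1), S.dn_up y h1, f5]
    · rw [tau_none_left]
      unfold inf
      rw [if_pos (S.low_dn y h1), S.up_dn y h1, f4]
  · rw [tau_none_right]
    unfold inf
    split_ifs with h1
    · obtain ⟨j, rfl⟩ : ∃ j : Fin 3, i = j + 1 := ⟨i + 2, (f5 i).symm⟩
      rw [f4, tau_pred]
      unfold half
      rw [S.sq_high _ (S.high_up x h1), S.dn_up x h1, if_pos rfl, if_neg (S.high_up x h1)]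
    · rw [tau_succ]
      unfold half
      rw [S.sq_high _ h1, if_pos rfl, if_neg h1]
  · rcases fin3 i j with rfl | rfl | rfl
    · have hxy : x ≠ y := by
        rintro rfl
        exact h rfl
      rw [tau_eq, tau_succ]
      unfold half
      rw [if_neg (fun h' => hxy (S.cancel h')), S.ld_op]
    · rw [tau_succ]
      unfold half
      split_ifs with h1 h2
      · -- `y = x` low
        have h3 : y = x := by rw [← h1]; exact S.sq_low x h2
        subst h3
        have e : i = (i + 2) + 1 := (f5 i).symm
        conv_lhs => rw [show (some (y, i) : Option (Q × Fin 3)) = some (y, (i + 2) + 1) by rw [f5]]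
        rw [tau_pred]
        unfold half
        rw [if_pos h1, if_pos h2, f7]
      · rw [tau_none_right]
        unfold inf
        rw [if_neg h2, ← S.sq_high x h2, h1]
      · rw [tau_eq, S.op_ld]
    · rw [tau_pred]
      unfold half
      split_ifs with h1 h2
      · have h3 : y = x := by rw [← h1]; exact (S.sq_low y h2).symm
        subst h3
        conv_lhs => rw [show (some (y, j + 2) : Option (Q × Fin 3)) = some (y, (j + 1) + 1) by
          rw [f8]]
        rw [tau_succ]
        unfold half
        rw [if_pos h1, if_pos h2, f4]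
      · rw [tau_none_right]
        unfold inf
        have h3 : S.low x := by rw [← h1, S.sq_high y h2]; exact S.low_dn y h2
        rw [if_pos h3, f4, ← h1, S.sq_high y h2, S.up_dn y h2]
      · rw [tau_pred]
        unfold half
        have h3 := S.op_ld y x
        have h4 : S.op (S.ld y x) (S.ld y x) ≠ x := by
          intro h5
          have h6 : S.op (S.ld y x) (S.ld y x) = S.op (S.ld y x) y := by
            rw [h5, S.comm, h3]
          have h7 := S.cancel h6
          rw [h7] at h3
          exact h1 h3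
        rw [if_neg h4]
        have h8 : S.ld (S.ld y x) x = y := by
          have h9 : S.op (S.ld y x) y = x := by rw [S.comm, h3]
          have h10 := S.ld_op (S.ld y x) y
          rwa [h9] at h10
        rw [h8]

include S in
theorem sys [Fintype Q] : Sys (Option (Q × Fin 3)) 1 :=
  sys_of_tau S.tau S.tau_comm S.tau_ne S.tau_tau

end HQ

section Skolem

variable (k : ℕ) [NeZero (2 * k)]

/-- halving -/
def gg (t : Fin (2 * k)) : Fin (2 * k) :=
  ⟨if t.val % 2 = 0 then t.val / 2 else t.val / 2 + k, by
    have := t.isLt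
    split_ifs <;> omega⟩

/-- its inverse -/
def gi (t : Fin (2 * k)) : Fin (2 * k) :=
  ⟨if t.val < k then 2 * t.val else 2 * (t.val - k) + 1, by
    have := t.isLt
    split_ifs <;> omega⟩

omit [NeZero (2 * k)] in
theorem gi_gg (t : Fin (2 * k)) : gi k (gg k t) = t := by
  apply Fin.ext
  have := t.isLt
  unfold gi gg
  dsimp only
  split_ifs <;> omega

omit [NeZero (2 * k)] in
theorem gg_gi (t : Fin (2 * k)) : gg k (gi k t) = t := by
  apply Fin.ext
  have := t.isLt
  unfold gi gg
  dsimp only
  split_ifs <;> omega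

omit [NeZero (2 * k)] in
theorem val_double (x : Fin (2 * k)) :
    (x + x).val = if x.val < k then 2 * x.val else 2 * (x.val - k) := by
  rw [Fin.val_add]
  have := x.isLt
  split_ifs with h
  · rw [Nat.mod_eq_of_lt (by omega)]
    ring
  · rw [Nat.mod_eq_sub_mod (by omega), Nat.mod_eq_of_lt (by omega)]
    omega

/-- the quasigroup of Skolem's construction -/
def skolem : HQ (Fin (2 * k)) where
  op x y := gg k (x + y)
  ld x z := gi k z - x
  low x := x.val < k
  dec x := inferInstanceAs (Decidable (x.val < k))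
  up x := if h : x.val < k then ⟨x.val + k, by omega⟩ else x
  dn x := if h : k ≤ x.val then ⟨x.val - k, by omega⟩ else x
  comm x y := by rw [add_comm]
  op_ld x z := by
    rw [add_sub_cancel, gg_gi]
  ld_op x y := by
    rw [gi_gg, add_sub_cancel_left]
  sq_low x h := by
    apply Fin.ext
    have h1 := val_double k x
    rw [if_pos h] at h1
    unfold gg
    dsimp only
    rw [h1]
    split_ifs <;> omega
  sq_high x h := by
    apply Fin.ext
    have h1 := val_double k x
    rw [if_neg h] at h1
    rw [dif_pos (not_lt.1 h)]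
    unfold gg
    dsimp only
    rw [h1]
    split_ifs <;> omega
  low_dn x h := by
    rw [dif_pos (not_lt.1 h)]
    have := x.isLt
    dsimp only
    omega
  up_dn x h := by
    have := x.isLt
    apply Fin.ext
    rw [dif_pos (not_lt.1 h)]
    rw [dif_pos (by dsimp only; omega)]
    dsimp only
    omega
  high_up x h := by
    rw [dif_pos h]
    dsimp only
    omega
  dn_up x h := by
    apply Fin.ext
    rw [dif_pos h]
    rw [dif_pos (by dsimp only; omega)]
    dsimp only
    omega

end Skolem

/-- **Package K**: Kirkman's theorem. -/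
theorem t_K : S_K := by
  intro v hv
  rcases hv with hv | hv
  · obtain ⟨k, hk⟩ : ∃ k, v = 6 * k + 1 := ⟨v / 6, by omega⟩
    rcases Nat.eq_zero_or_pos k with h0 | h0
    · subst h0
      have h1 : v = 1 := by omega
      subst h1
      refine ⟨fun _ _ _ => false, fun _ _ _ => rfl, fun _ _ _ => rfl, fun _ _ => rfl, ?_⟩
      intro x y h
      exact absurd (Subsingleton.elim x y) h
    · have : NeZero (2 * k) := ⟨by omega⟩
      refine Sys.congr (Fintype.equivOfCardEq ?_) (skolem k).sys
      rw [Fintype.card_fin, Fintype.card_option, Fintype.card_prod, Fintype.card_fin,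
        Fintype.card_fin]
      omega
  · obtain ⟨k, hk⟩ : ∃ k, v = 3 * (2 * k + 1) := ⟨v / 6, by omega⟩
    have hh : 2 * ((k + 1 : ℕ) : ZMod (2 * k + 1)) = 1 := by
      have h1 : ((2 * k + 1 : ℕ) : ZMod (2 * k + 1)) = 0 := ZMod.natCast_self _
      push_cast at h1 ⊢
      linear_combination h1
    refine Sys.congr (Fintype.equivOfCardEq ?_) (sys_bose hh)
    rw [Fintype.card_fin, Fintype.card_prod, ZMod.card, Fintype.card_fin]
    omega

end Pool.Agent.U645.VB
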